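import Pool.Agent.Helper88.Weiss.Sel

/-!
Packet W-J2 of MP_6b0aee_an: selection of an ergodic measure.
-/

open Set Filter Topology MeasureTheory Pool.Agent.Helper38.Weiss
open scoped ENNReal

namespace Pool.Agent.Helper88.Weiss

/-- the functional to be maximised -/
noncomputable def JJ {E : Type*} [TopologicalSpace E] [MeasurableSpace E] (G : E → E) {n : ℕ}
    (w : E → Fin n) (B : Set E) (C : ℝ) (m : ProbabilityMeasure E) : ℝ :=
  hInf (m : Measure E) G w + - (C * ((m : Measure E) B).toReal)

theorem ergodic_selection {E : Type*} [TopologicalSpace E] [CompactSpace E]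
    [TopologicalSpace.MetrizableSpace E] [MeasurableSpace E] [BorelSpace E] (G : E → E)
    (hG : Continuous G) {n : ℕ} (w : E → Fin n) (hw : Continuous w) (B : Set E) (hB : IsOpen B)
    (C : ℝ) (hC : 0 ≤ C) (m₀ : Measure E) [IsProbabilityMeasure m₀]
    (h₀ : MeasurePreserving G m₀ m₀) :
    ∃ m : Measure E, IsProbabilityMeasure m ∧ Ergodic G m ∧
      hInf m₀ G w - C * (m₀ B).toReal ≤ hInf m G w - C * (m B).toReal := by
  classical
  have hGm : Measurable G := hG.measurable
  -- the invariant measures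
  set Inv : Set (ProbabilityMeasure E) :=
    {m | ProbabilityMeasure.map m hGm.aemeasurable = m} with hInv
  have hInvClosed : IsClosed Inv :=
    isClosed_eq (ProbabilityMeasure.continuous_map hG) continuous_id
  have hInvCompact : IsCompact Inv := hInvClosed.isCompact
  have hInvMP : ∀ m : ProbabilityMeasure E, m ∈ Inv ↔
      MeasurePreserving G (m : Measure E) (m : Measure E) := by
    intro m
    constructor
    · intro h
      refine ⟨hGm, ?_⟩
      have h2 := congrArg (fun m : ProbabilityMeasure E => (m : Measure E)) (show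
        ProbabilityMeasure.map m hGm.aemeasurable = m from h)
      exact h2
    · intro h
      show ProbabilityMeasure.map m hGm.aemeasurable = m
      apply ProbabilityMeasure.toMeasure_injective
      exact h.map_eq
  set J : ProbabilityMeasure E → ℝ := JJ G w B C with hJ
  have hJusc : UpperSemicontinuous J := (usc_hInf G hG w hw).add (usc_open B hB C hC)
  let M₀ : ProbabilityMeasure E := ⟨m₀, inferInstance⟩
  have hM₀ : M₀ ∈ Inv := (hInvMP M₀).2 h₀
  obtain ⟨mx, hmxI, hmx⟩ := UpperSemicontinuousOn.exists_isMaxOn ⟨M₀, hM₀⟩ hInvCompact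
    (hJusc.upperSemicontinuousOn Inv)
  have hmx' : ∀ m ∈ Inv, J m ≤ J mx := fun m hm => hmx hm
  -- the maximisers
  set Mx : Set (ProbabilityMeasure E) := Inv ∩ (J ⁻¹' Ici (J mx)) with hMx
  have hMxC : IsCompact Mx := hInvCompact.inter_right (hJusc.isClosed_preimage (J mx))
  obtain ⟨Θ, hΘ, hΘs⟩ := exists_theta (E := E)
  obtain ⟨m, hmM, hmΘ⟩ := hMxC.exists_isMaxOn ⟨mx, hmxI, le_refl (J mx)⟩ hΘ.continuousOn
  have hmΘ' : ∀ m' ∈ Mx, Θ m' ≤ Θ m := fun m' hm' => hmΘ hm'
  have hmJ : J m = J mx := le_antisymm (hmx' m hmM.1) hmM.2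
  have hmP : MeasurePreserving G (m : Measure E) (m : Measure E) := (hInvMP m).1 hmM.1
  refine ⟨(m : Measure E), inferInstance, ?_, ?_⟩
  swap
  · have h1 := hmx' M₀ hM₀
    rw [← hmJ] at h1
    have h2 : hInf m₀ G w + - (C * (m₀ B).toReal) ≤
        hInf (m : Measure E) G w + - (C * ((m : Measure E) B).toReal) := h1
    linarith
  -- ergodicity
  refine ⟨hmP, ⟨?_⟩⟩
  intro A hA hGA
  by_contra hcon
  rw [eventuallyConst_set, not_or] at hcon
  have hAc : MeasurableSet Aᶜ := hA.compl
  set a : ℝ≥0∞ := (m : Measure E) A with ha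
  set b : ℝ≥0∞ := (m : Measure E) Aᶜ with hb
  have ha0 : a ≠ 0 := by
    intro h0
    apply hcon.2
    rw [ae_iff]
    simp only [not_not]
    exact h0
  have hb0 : b ≠ 0 := by
    intro h0
    apply hcon.1
    rw [ae_iff]
    exact h0
  have hab : a + b = 1 := by
    rw [ha, hb, measure_add_measure_compl hA, measure_univ]
  have hat : a ≠ ∞ := measure_ne_top _ _
  have hbt : b ≠ ∞ := measure_ne_top _ _
  let m₁ : ProbabilityMeasure E :=
    ⟨ProbabilityTheory.cond (m : Measure E) A, ProbabilityTheory.cond_isProbabilityMeasure ha0⟩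
  let m₂ : ProbabilityMeasure E :=
    ⟨ProbabilityTheory.cond (m : Measure E) Aᶜ, ProbabilityTheory.cond_isProbabilityMeasure hb0⟩
  have e1 : (m₁ : Measure E) = a⁻¹ • (m : Measure E).restrict A := rfl
  have e2 : (m₂ : Measure E) = b⁻¹ • (m : Measure E).restrict Aᶜ := rfl
  have hm : (m : Measure E) = a • (m₁ : Measure E) + b • (m₂ : Measure E) := by
    rw [e1, e2, smul_smul, smul_smul, ENNReal.mul_inv_cancel ha0 hat,
      ENNReal.mul_inv_cancel hb0 hbt, one_smul, one_smul, Measure.restrict_add_restrict_compl hA]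
  have hGAc : G ⁻¹' Aᶜ = Aᶜ := by rw [preimage_compl, hGA]
  have hrestr : ∀ s : Set E, MeasurableSet s → G ⁻¹' s = s →
      MeasurePreserving G ((m : Measure E).restrict s) ((m : Measure E).restrict s) := by
    intro s hs hGs
    have := hmP.restrict_preimage hs
    rwa [hGs] at this
  have hp1 : MeasurePreserving G (m₁ : Measure E) (m₁ : Measure E) := by
    rw [e1]
    exact (hrestr A hA hGA).smul_measure _
  have hp2 : MeasurePreserving G (m₂ : Measure E) (m₂ : Measure E) := by
    rw [e2]
    exact (hrestr Aᶜ hAc hGAc).smul_measure _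
  have hm1 : m₁ ∈ Inv := (hInvMP m₁).2 hp1
  have hm2 : m₂ ∈ Inv := (hInvMP m₂).2 hp2
  set t : ℝ := a.toReal with ht
  have htb : b.toReal = 1 - t := by
    have h3 := congrArg ENNReal.toReal hab
    rw [ENNReal.toReal_add hat hbt, ENNReal.toReal_one] at h3
    linarith
  have ht0 : 0 < t := ENNReal.toReal_pos ha0 hat
  have ht1 : 0 < 1 - t := by
    rw [← htb]
    exact ENNReal.toReal_pos hb0 hbt
  have hval : ∀ s : Set E, ((m : Measure E) s).toReal =
      t * ((m₁ : Measure E) s).toReal + (1 - t) * ((m₂ : Measure E) s).toReal := by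
    intro s
    conv_lhs => rw [hm]
    rw [Measure.add_apply, Measure.smul_apply, Measure.smul_apply, smul_eq_mul, smul_eq_mul,
      ENNReal.toReal_add (ENNReal.mul_ne_top hat (measure_ne_top _ _))
        (ENNReal.mul_ne_top hbt (measure_ne_top _ _)), ENNReal.toReal_mul, ENNReal.toReal_mul,
      htb]
  have hent := hInf_mix_le (m : Measure E) (m₁ : Measure E) (m₂ : Measure E) G hmP hp1 hp2 w
    hw.measurable t ht0.le (by linarith) (fun L v => hval _)
  have hJle : J m ≤ t * J m₁ + (1 - t) * J m₂ := by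
    have h4 := hval B
    simp only [hJ, JJ]
    rw [h4]
    linarith
  have hJ1 := hmx' m₁ hm1
  have hJ2 := hmx' m₂ hm2
  rw [hmJ] at hJle
  have hJ1' : J mx ≤ J m₁ := by
    by_contra hc
    rw [not_le] at hc
    have h5 := mul_lt_mul_of_pos_left hc ht0
    have h6 := mul_le_mul_of_nonneg_left hJ2 ht1.le
    linarith
  have hJ2' : J mx ≤ J m₂ := by
    by_contra hc
    rw [not_le] at hc
    have h5 := mul_lt_mul_of_pos_left hc ht1
    have h6 := mul_le_mul_of_nonneg_left hJ1 ht0.le
    linarith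
  have heq := hΘs m m₁ m₂ a b ha0 hb0 hab hm (hmΘ' m₁ ⟨hm1, hJ1'⟩) (hmΘ' m₂ ⟨hm2, hJ2'⟩)
  have h7 : (m₁ : Measure E) A = 1 := by
    rw [e1, Measure.smul_apply, Measure.restrict_apply hA, inter_self, smul_eq_mul, ← ha,
      ENNReal.inv_mul_cancel ha0 hat]
  have h8 : (m₂ : Measure E) A = 0 := by
    rw [e2, Measure.smul_apply, Measure.restrict_apply hA, inter_compl_self, measure_empty,
      smul_zero]
  rw [heq, h8] at h7
  exact zero_ne_one h7

end Pool.Agent.Helper88.Weiss
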