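import Pool.Agent.Helper38.Weiss.Api

/-!
Packet W-E of MP_6b0aee_an: finite entropy toolbox.
-/

open Set Filter Topology MeasureTheory Pool.Agent.Helper38.Weiss

namespace Pool.Agent.Helper88.Weiss

theorem gibbs_pt {r s : ℝ} (hr : 0 ≤ r) (hs : 0 ≤ s) (h : s = 0 → r = 0) :
    Real.negMulLog r ≤ - r * Real.log s + (s - r) := by
  rcases hr.lt_or_eq with hr' | hr'
  · have hs' : 0 < s := lt_of_le_of_ne hs (fun h0 => hr'.ne' (h h0.symm))
    have h1 : Real.log (s / r) ≤ s / r - 1 := Real.log_le_sub_one_of_pos (div_pos hs' hr')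
    have h2 := mul_le_mul_of_nonneg_left h1 hr
    rw [Real.log_div hs'.ne' hr'.ne', mul_sub, mul_sub, mul_div_cancel₀ _ hr'.ne', mul_one] at h2
    rw [Real.negMulLog]
    linarith
  · rw [← hr', Real.negMulLog_zero]
    linarith

theorem ent_prod_le {β γ : Type*} [Fintype β] [Fintype γ] (r : β × γ → ℝ) (hr : ∀ z, 0 ≤ r z)
    (hr1 : ∑ z, r z = 1) :
    ent r ≤ ent (fun b => ∑ c, r (b, c)) + ent (fun c => ∑ b, r (b, c)) := by
  classical
  set r1 : β → ℝ := fun b => ∑ c, r (b, c) with hr1'
  set r2 : γ → ℝ := fun c => ∑ b, r (b, c) with hr2'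
  have h1 : ∀ b c, r (b, c) ≤ r1 b := fun b c =>
    Finset.single_le_sum (f := fun c => r (b, c)) (fun c _ => hr (b, c)) (Finset.mem_univ c)
  have h2 : ∀ b c, r (b, c) ≤ r2 c := fun b c =>
    Finset.single_le_sum (f := fun b => r (b, c)) (fun b _ => hr (b, c)) (Finset.mem_univ b)
  have h10 : ∀ b, 0 ≤ r1 b := fun b => Finset.sum_nonneg fun c _ => hr _
  have h20 : ∀ c, 0 ≤ r2 c := fun c => Finset.sum_nonneg fun b _ => hr _
  have hs1 : ∑ b, r1 b = 1 := by
    rw [← hr1, Fintype.sum_prod_type]
  have hs2 : ∑ c, r2 c = 1 := by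
    rw [← hr1, Fintype.sum_prod_type, Finset.sum_comm]
  have hpt : ∀ b c, Real.negMulLog (r (b, c)) ≤ - r (b, c) * Real.log (r1 b) +
      - r (b, c) * Real.log (r2 c) + (r1 b * r2 c - r (b, c)) := by
    intro b c
    have h3 := gibbs_pt (hr (b, c)) (mul_nonneg (h10 b) (h20 c)) (by
      intro h0
      rcases mul_eq_zero.1 h0 with h4 | h4
      · exact le_antisymm (h4 ▸ h1 b c) (hr _)
      · exact le_antisymm (h4 ▸ h2 b c) (hr _))
    refine h3.trans (le_of_eq ?_)
    rcases (hr (b, c)).lt_or_eq with h5 | h5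
    · rw [Real.log_mul (lt_of_lt_of_le h5 (h1 b c)).ne' (lt_of_lt_of_le h5 (h2 b c)).ne']
      ring
    · rw [← h5]
      ring
  calc ent r = ∑ b, ∑ c, Real.negMulLog (r (b, c)) := by
        unfold ent
        rw [Fintype.sum_prod_type]
    _ ≤ ∑ b, ∑ c, (- r (b, c) * Real.log (r1 b) + - r (b, c) * Real.log (r2 c) +
          (r1 b * r2 c - r (b, c))) :=
        Finset.sum_le_sum fun b _ => Finset.sum_le_sum fun c _ => hpt b c
    _ = ent r1 + ent r2 := by
        simp only [Finset.sum_add_distrib, Finset.sum_sub_distrib]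
        have e1 : ∑ b, ∑ c, - r (b, c) * Real.log (r1 b) = ent r1 := by
          unfold ent Real.negMulLog
          refine Finset.sum_congr rfl fun b _ => ?_
          rw [← Finset.sum_mul, Finset.sum_neg_distrib]
        have e2 : ∑ b, ∑ c, - r (b, c) * Real.log (r2 c) = ent r2 := by
          unfold ent Real.negMulLog
          rw [Finset.sum_comm]
          refine Finset.sum_congr rfl fun c _ => ?_
          rw [← Finset.sum_mul, Finset.sum_neg_distrib]
        have e3 : ∑ b, ∑ c, r1 b * r2 c = 1 := by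
          rw [← Finset.sum_mul_sum, hs1, hs2, one_mul]
        have e4 : ∑ b, ∑ c, r (b, c) = 1 := hs1
        rw [e1, e2, e3, e4]
        ring

theorem ent_le_log_card {β : Type*} [Fintype β] (r : β → ℝ) (hr : ∀ z, 0 ≤ r z)
    (hr1 : ∑ z, r z = 1) : ent r ≤ Real.log (Fintype.card β) := by
  classical
  have hne : Nonempty β := by
    by_contra hcon
    rw [not_nonempty_iff] at hcon
    rw [Finset.univ_eq_empty, Finset.sum_empty] at hr1
    exact zero_ne_one hr1
  have hc : (0 : ℝ) < Fintype.card β := by exact_mod_cast Fintype.card_pos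
  calc ent r ≤ ∑ z, (- r z * Real.log ((Fintype.card β : ℝ)⁻¹) +
        ((Fintype.card β : ℝ)⁻¹ - r z)) :=
        Finset.sum_le_sum fun z _ => gibbs_pt (hr z) (by positivity)
          (fun h => absurd h (by positivity))
    _ = Real.log (Fintype.card β) := by
        rw [Finset.sum_add_distrib, Finset.sum_sub_distrib, ← Finset.sum_mul,
          Finset.sum_neg_distrib, hr1, Real.log_inv, Finset.sum_const, Finset.card_univ,
          nsmul_eq_mul, mul_inv_cancel₀ hc.ne']
        ring

theorem ent_nonneg {β : Type*} [Fintype β] (r : β → ℝ) (hr : ∀ z, 0 ≤ r z)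
    (hr1 : ∑ z, r z ≤ 1) : 0 ≤ ent r :=
  Finset.sum_nonneg fun z _ => Real.negMulLog_nonneg (hr z)
    ((Finset.single_le_sum (fun z _ => hr z) (Finset.mem_univ z)).trans hr1)

theorem negMulLog_add_le {a b : ℝ} (ha : 0 ≤ a) (hb : 0 ≤ b) :
    Real.negMulLog (a + b) ≤ Real.negMulLog a + Real.negMulLog b := by
  have h1 : a * Real.log a ≤ a * Real.log (a + b) := by
    rcases ha.lt_or_eq with h | h
    · exact mul_le_mul_of_nonneg_left (Real.log_le_log h (by linarith)) ha
    · rw [← h, zero_mul, zero_mul]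
  have h2 : b * Real.log b ≤ b * Real.log (a + b) := by
    rcases hb.lt_or_eq with h | h
    · exact mul_le_mul_of_nonneg_left (Real.log_le_log h (by linarith)) hb
    · rw [← h, zero_mul, zero_mul]
  unfold Real.negMulLog
  linarith

theorem ent_mix_le {β : Type*} [Fintype β] (r r' : β → ℝ) (hr : ∀ z, 0 ≤ r z)
    (hr1 : ∑ z, r z = 1) (hr' : ∀ z, 0 ≤ r' z) (hr1' : ∑ z, r' z = 1) (t : ℝ) (ht : 0 ≤ t)
    (ht1 : t ≤ 1) :
    ent (fun z => t * r z + (1 - t) * r' z) ≤ t * ent r + (1 - t) * ent r' + Real.log 2 := by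
  have h1 : ent (fun z => t * r z + (1 - t) * r' z) ≤
      ∑ z, ((r z * Real.negMulLog t + t * Real.negMulLog (r z)) +
        (r' z * Real.negMulLog (1 - t) + (1 - t) * Real.negMulLog (r' z))) := by
    refine Finset.sum_le_sum fun z _ => ?_
    rw [← Real.negMulLog_mul, ← Real.negMulLog_mul]
    exact negMulLog_add_le (mul_nonneg ht (hr z)) (mul_nonneg (by linarith) (hr' z))
  refine h1.trans ?_
  simp only [Finset.sum_add_distrib]
  rw [← Finset.sum_mul, ← Finset.sum_mul, ← Finset.mul_sum, ← Finset.mul_sum, hr1, hr1']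
  have h2 := Real.binEntropy_le_log_two (p := t)
  rw [Real.binEntropy_eq_negMulLog_add_negMulLog_one_sub] at h2
  unfold ent
  linarith

theorem ent_concave {β κ : Type*} [Fintype β] [Fintype κ] (t : κ → ℝ) (ht : ∀ j, 0 ≤ t j)
    (ht1 : ∑ j, t j = 1) (r : κ → β → ℝ) (hr : ∀ j z, 0 ≤ r j z) :
    ∑ j, t j * ent (r j) ≤ ent (fun z => ∑ j, t j * r j z) := by
  unfold ent
  simp_rw [Finset.mul_sum]
  rw [Finset.sum_comm]
  refine Finset.sum_le_sum fun z _ => ?_
  have h := Real.concaveOn_negMulLog.le_map_sum (t := Finset.univ) (w := t)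
    (p := fun j => r j z) (fun j _ => ht j) ht1 (fun j _ => hr j z)
  simpa only [smul_eq_mul] using h

theorem law_nonneg {X : Type*} [MeasurableSpace X] (ν : Measure X) (F : X → X) {n : ℕ}
    (P : X → Fin n) (L : ℕ) (w : Fin L → Fin n) : 0 ≤ law ν F P L w := ENNReal.toReal_nonneg

/-- splitting a measure along a finite valued map -/
theorem sum_inter {X Z : Type*} [MeasurableSpace X] (ν : Measure X) [IsFiniteMeasure ν]
    [Fintype Z] (g : X → Z) (hg : ∀ z, MeasurableSet (g ⁻¹' {z})) (s : Set X) :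
    ∑ z, (ν (s ∩ g ⁻¹' {z})).toReal = (ν s).toReal := by
  classical
  rw [← ENNReal.toReal_sum (fun z _ => measure_ne_top ν _)]
  congr 1
  have h1 : ∀ z, ν (s ∩ g ⁻¹' {z}) = (ν.restrict s) (g ⁻¹' {z}) := by
    intro z
    rw [Measure.restrict_apply (hg z), inter_comm]
  simp_rw [h1]
  have h2 := MeasureTheory.sum_measure_preimage_singleton (μ := ν.restrict s)
    (Finset.univ : Finset Z) (f := g) (fun z _ => hg z)
  rw [h2, Finset.coe_univ, preimage_univ, Measure.restrict_apply_univ]

theorem measurableSet_names {X : Type*} [MeasurableSpace X] (F : X → X) (hF : Measurable F)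
    {n : ℕ} (P : X → Fin n) (hP : Measurable P) (L a : ℕ) (w : Fin L → Fin n) :
    MeasurableSet {x | ∀ s : Fin L, P (F^[a + s] x) = w s} := by
  have h1 : {x | ∀ s : Fin L, P (F^[a + s] x) = w s} =
      ⋂ s : Fin L, (fun x => P (F^[a + s] x)) ⁻¹' {w s} := by
    ext x
    simp
  rw [h1]
  exact MeasurableSet.iInter fun s => (hP.comp (hF.iterate _)) (measurableSet_singleton _)

theorem sum_law {X : Type*} [MeasurableSpace X] (ν : Measure X) [IsProbabilityMeasure ν]
    (F : X → X) (hF : Measurable F) {n : ℕ} (P : X → Fin n) (hP : Measurable P) (L : ℕ) :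
    ∑ w, law ν F P L w = 1 := by
  have h1 := sum_inter ν (fun x => (fun s : Fin L => P (F^[s] x))) (by
    intro w
    have h2 := measurableSet_names F hF P hP L 0 w
    have h3 : (fun x => (fun s : Fin L => P (F^[s] x))) ⁻¹' {w} =
        {x | ∀ s : Fin L, P (F^[0 + s] x) = w s} := by
      ext x
      simp [funext_iff]
    rw [h3]
    exact h2) univ
  rw [measure_univ, ENNReal.toReal_one] at h1
  rw [← h1]
  refine Finset.sum_congr rfl fun w _ => ?_
  unfold law
  congr 2
  ext x
  simp [funext_iff]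

theorem ent_law_add_le {X : Type*} [MeasurableSpace X] (ν : Measure X) [IsProbabilityMeasure ν]
    (F : X → X) (hF : MeasurePreserving F ν ν) {n : ℕ} (P : X → Fin n) (hP : Measurable P)
    (L M : ℕ) : ent (law ν F P (L + M)) ≤ ent (law ν F P L) + ent (law ν F P M) := by
  classical
  set r : (Fin L → Fin n) × (Fin M → Fin n) → ℝ := fun z =>
    law ν F P (L + M) (Fin.append z.1 z.2) with hr
  have hset : ∀ (u : Fin L → Fin n) (v : Fin M → Fin n),
      {x | ∀ s : Fin (L + M), P (F^[s] x) = Fin.append u v s} =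
      {x | ∀ s : Fin L, P (F^[s] x) = u s} ∩ {x | ∀ s : Fin M, P (F^[L + s] x) = v s} := by
    intro u v
    ext x
    simp only [mem_setOf_eq, mem_inter_iff]
    constructor
    · intro h
      refine ⟨fun s => ?_, fun s => ?_⟩
      · have := h (Fin.castAdd M s)
        rwa [Fin.append_left, Fin.val_castAdd] at this
      · have := h (Fin.natAdd L s)
        rwa [Fin.append_right, Fin.val_natAdd] at this
    · rintro ⟨h1, h2⟩ s
      refine Fin.addCases (fun i => ?_) (fun i => ?_) s
      · rw [Fin.append_left, Fin.val_castAdd]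
        exact h1 i
      · rw [Fin.append_right, Fin.val_natAdd]
        exact h2 i
  have hm1 : ∀ u, ∑ v, r (u, v) = law ν F P L u := by
    intro u
    have h1 := sum_inter ν (fun x => (fun s : Fin M => P (F^[L + s] x))) (by
      intro w
      have h2 := measurableSet_names F hF.measurable P hP M L w
      have h3 : (fun x => (fun s : Fin M => P (F^[L + s] x))) ⁻¹' {w} =
          {x | ∀ s : Fin M, P (F^[L + s] x) = w s} := by
        ext x
        simp [funext_iff]
      rw [h3]
      exact h2) {x | ∀ s : Fin L, P (F^[s] x) = u s}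
    unfold law
    rw [← h1]
    refine Finset.sum_congr rfl fun v _ => ?_
    simp only [hr, law]
    rw [hset]
    congr 3
    ext x
    simp [funext_iff]
  have hm2 : ∀ v, ∑ u, r (u, v) = law ν F P M v := by
    intro v
    have h1 := sum_inter ν (fun x => (fun s : Fin L => P (F^[s] x))) (by
      intro w
      have h2 := measurableSet_names F hF.measurable P hP L 0 w
      have h3 : (fun x => (fun s : Fin L => P (F^[s] x))) ⁻¹' {w} =
          {x | ∀ s : Fin L, P (F^[0 + s] x) = w s} := by
        ext x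
        simp [funext_iff]
      rw [h3]
      exact h2) {x | ∀ s : Fin M, P (F^[L + s] x) = v s}
    have h4 : law ν F P M v = (ν {x | ∀ s : Fin M, P (F^[L + s] x) = v s}).toReal := by
      unfold law
      have h5 : {x | ∀ s : Fin M, P (F^[L + s] x) = v s} =
          F^[L] ⁻¹' {x | ∀ s : Fin M, P (F^[s] x) = v s} := by
        ext x
        simp only [mem_setOf_eq, mem_preimage]
        refine forall_congr' fun s => ?_
        rw [add_comm L, Function.iterate_add_apply]
      rw [h5, (hF.iterate L).measure_preimage]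
      have h6 := measurableSet_names F hF.measurable P hP M 0 v
      simp only [zero_add] at h6
      exact h6.nullMeasurableSet
    rw [h4, ← h1]
    refine Finset.sum_congr rfl fun u _ => ?_
    simp only [hr, law]
    rw [hset, inter_comm]
    congr 3
    ext x
    simp [funext_iff]
  have hsum : ∑ z, r z = 1 := by
    rw [Fintype.sum_prod_type]
    simp_rw [hm1]
    exact sum_law ν F hF.measurable P hP L
  have h1 := ent_prod_le r (fun z => law_nonneg ν F P _ _) hsum
  simp_rw [hm1, hm2] at h1
  refine le_trans (le_of_eq ?_) h1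
  unfold ent
  rw [← (Fin.appendEquiv L M).sum_comp]
  rfl

end Pool.Agent.Helper88.Weiss
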