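import Pool.Agent.Helper88.Weiss.Ent

/-!
Packet W-J2 of MP_6b0aee_an: selection of an ergodic measure.
-/

open Set Filter Topology MeasureTheory Pool.Agent.Helper38.Weiss

namespace Pool.Agent.Helper88.Weiss

/-! ### the entropy as a limit -/

theorem hInf_tendsto {X : Type*} [MeasurableSpace X] (ν : Measure X) [IsProbabilityMeasure ν]
    (F : X → X) (hF : MeasurePreserving F ν ν) {n : ℕ} (P : X → Fin n) (hP : Measurable P) :
    Tendsto (fun L : ℕ => ent (law ν F P (L + 1)) / ((L : ℝ) + 1)) atTop
      (𝓝 (hInf ν F P)) := by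
  have hsub : Subadditive (fun L => ent (law ν F P L)) := fun L M =>
    ent_law_add_le ν F hF P hP L M
  have h0 : ∀ L, 0 ≤ ent (law ν F P L) := fun L =>
    ent_nonneg _ (fun w => law_nonneg ν F P L w) (sum_law ν F hF.measurable P hP L).le
  have hbdd : BddBelow (range fun n : ℕ => ent (law ν F P n) / n) := by
    refine ⟨0, ?_⟩
    rintro _ ⟨m, rfl⟩
    exact div_nonneg (h0 m) (Nat.cast_nonneg m)
  have h := (hsub.tendsto_lim hbdd).comp (tendsto_add_atTop_nat 1)
  have h' : Tendsto (fun L : ℕ => ent (law ν F P (L + 1)) / ((L : ℝ) + 1)) atTop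
      (𝓝 hsub.lim) := by
    refine h.congr fun L => ?_
    simp only [Function.comp]
    push_cast
    rfl
  have hbdd' : BddBelow (range fun L : ℕ => ent (law ν F P (L + 1)) / ((L : ℝ) + 1)) := by
    refine ⟨0, ?_⟩
    rintro _ ⟨m, rfl⟩
    exact div_nonneg (h0 _) (by positivity)
  have hlim : hsub.lim = hInf ν F P := by
    apply le_antisymm
    · refine le_ciInf fun L => ?_
      have h1 := hsub.lim_le_div hbdd (n := L + 1) (by omega)
      push_cast at h1
      exact h1
    · exact ge_of_tendsto' h' fun L => ciInf_le hbdd' L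
  rw [← hlim]
  exact h'

theorem hInf_mix_le {X : Type*} [MeasurableSpace X] (m m₁ m₂ : Measure X)
    [IsProbabilityMeasure m] [IsProbabilityMeasure m₁] [IsProbabilityMeasure m₂]
    (G : X → X) (hG : MeasurePreserving G m m) (hG₁ : MeasurePreserving G m₁ m₁)
    (hG₂ : MeasurePreserving G m₂ m₂) {n : ℕ} (w : X → Fin n) (hw : Measurable w) (t : ℝ)
    (ht : 0 ≤ t) (ht1 : t ≤ 1)
    (hlaw : ∀ L v, law m G w L v = t * law m₁ G w L v + (1 - t) * law m₂ G w L v) :
    hInf m G w ≤ t * hInf m₁ G w + (1 - t) * hInf m₂ G w := by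
  have h0 := hInf_tendsto m G hG w hw
  have h1 := hInf_tendsto m₁ G hG₁ w hw
  have h2 := hInf_tendsto m₂ G hG₂ w hw
  have h3 : Tendsto (fun L : ℕ => Real.log 2 / ((L : ℝ) + 1)) atTop (𝓝 0) :=
    tendsto_const_nhds.div_atTop
      (tendsto_atTop_add_const_right _ _ tendsto_natCast_atTop_atTop)
  have h4 := ((h1.const_mul t).add (h2.const_mul (1 - t))).add h3
  rw [add_zero] at h4
  refine le_of_tendsto_of_tendsto' h0 h4 fun L => ?_
  have hL : (0 : ℝ) < (L : ℝ) + 1 := by positivity
  have h5 := ent_mix_le (law m₁ G w (L + 1)) (law m₂ G w (L + 1))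
    (fun v => law_nonneg _ _ _ _ _) (sum_law m₁ G hG₁.measurable w hw _)
    (fun v => law_nonneg _ _ _ _ _) (sum_law m₂ G hG₂.measurable w hw _) t ht ht1
  have h6 : (fun z => t * law m₁ G w (L + 1) z + (1 - t) * law m₂ G w (L + 1) z) =
      law m G w (L + 1) := by
    funext z
    exact (hlaw _ z).symm
  rw [h6] at h5
  calc ent (law m G w (L + 1)) / ((L : ℝ) + 1) ≤
      (t * ent (law m₁ G w (L + 1)) + (1 - t) * ent (law m₂ G w (L + 1)) + Real.log 2) /
        ((L : ℝ) + 1) := by
        gcongr
    _ = _ := by ring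

/-! ### continuity -/

section top

variable {E : Type*} [TopologicalSpace E] [CompactSpace E]
  [TopologicalSpace.MetrizableSpace E] [MeasurableSpace E] [BorelSpace E]

theorem continuous_law (G : E → E) (hG : Continuous G) {n : ℕ} (w : E → Fin n)
    (hw : Continuous w) (L : ℕ) (v : Fin L → Fin n) :
    Continuous (fun m : ProbabilityMeasure E => law (m : Measure E) G w L v) := by
  unfold law
  rw [continuous_iff_continuousAt]
  intro m
  have hcl : IsClopen {x | ∀ s : Fin L, w (G^[s] x) = v s} := by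
    have h1 : {x | ∀ s : Fin L, w (G^[s] x) = v s} =
        ⋂ s : Fin L, (fun x => w (G^[s] x)) ⁻¹' {v s} := by
      ext x
      simp
    rw [h1]
    exact isClopen_iInter_of_finite fun s =>
      (isClopen_discrete _).preimage (hw.comp (hG.iterate s))
  have h := ProbabilityMeasure.tendsto_measure_of_null_frontier_of_tendsto' (μs := id)
    (L := 𝓝 m) tendsto_id (E := {x | ∀ s : Fin L, w (G^[s] x) = v s})
    (by rw [hcl.frontier_eq, measure_empty])
  exact (ENNReal.tendsto_toReal (measure_ne_top _ _)).comp h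

theorem continuous_ent_law (G : E → E) (hG : Continuous G) {n : ℕ} (w : E → Fin n)
    (hw : Continuous w) (L : ℕ) :
    Continuous (fun m : ProbabilityMeasure E => ent (law (m : Measure E) G w L)) := by
  unfold ent
  exact continuous_finsetSum _ fun v _ =>
    Real.continuous_negMulLog.comp (continuous_law G hG w hw L v)

theorem usc_hInf (G : E → E) (hG : Continuous G) {n : ℕ} (w : E → Fin n)
    (hw : Continuous w) :
    UpperSemicontinuous (fun m : ProbabilityMeasure E => hInf (m : Measure E) G w) := by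
  unfold hInf
  refine upperSemicontinuous_ciInf (fun m => ?_) fun L => ?_
  · refine ⟨0, ?_⟩
    rintro _ ⟨L, rfl⟩
    exact div_nonneg (ent_nonneg _ (fun v => law_nonneg _ _ _ _ _)
      (sum_law _ G hG.measurable w hw.measurable _).le) (by positivity)
  · exact ((continuous_ent_law G hG w hw (L + 1)).div_const _).upperSemicontinuous

theorem usc_open (B : Set E) (hB : IsOpen B) (C : ℝ) (hC : 0 ≤ C) :
    UpperSemicontinuous (fun m : ProbabilityMeasure E => - (C * ((m : Measure E) B).toReal)) := by
  rcases hC.lt_or_eq with hC' | hC'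
  · intro m y hy
    have h1 : - y / C < ((m : Measure E) B).toReal := by
      rw [div_lt_iff₀ hC']
      linarith
    by_cases h3 : 0 ≤ - y / C
    · have h2 : ENNReal.ofReal (- y / C) < (m : Measure E) B :=
        (ENNReal.ofReal_lt_iff_lt_toReal h3 (measure_ne_top _ _)).2 h1
      have h3' := ProbabilityMeasure.le_liminf_measure_open_of_tendsto (μs := id)
        (L := 𝓝 m) tendsto_id hB
      have h4 := eventually_lt_of_lt_liminf (lt_of_lt_of_le h2 h3')
      filter_upwards [h4] with m' hm'
      have h5 : ENNReal.ofReal (- y / C) < (m' : Measure E) B := hm'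
      have h6 : - y / C < ((m' : Measure E) B).toReal :=
        (ENNReal.ofReal_lt_iff_lt_toReal h3 (measure_ne_top _ _)).1 h5
      rw [div_lt_iff₀ hC'] at h6
      linarith
    · refine Eventually.of_forall fun m' => ?_
      rw [not_le] at h3
      have h6 : - y / C < ((m' : Measure E) B).toReal := lt_of_lt_of_le h3 ENNReal.toReal_nonneg
      rw [div_lt_iff₀ hC'] at h6
      linarith
  · rw [← hC']
    simp only [zero_mul, neg_zero]
    exact upperSemicontinuous_const

/-! ### a strictly convex functional -/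

theorem norm_integral_cont_le (m : Measure E) [IsProbabilityMeasure m] (f : C(E, ℝ)) :
    |∫ x, f x ∂m| ≤ ‖f‖ := by
  have h := norm_integral_le_of_norm_le_const (μ := m) (f := fun x => f x) (C := ‖f‖)
    (Eventually.of_forall fun x => f.norm_coe_le_norm x)
  simpa using h

theorem integrable_cont (m : Measure E) [IsFiniteMeasure m] (f : C(E, ℝ)) :
    Integrable (fun x => f x) m :=
  f.continuous.integrable_of_hasCompactSupport (HasCompactSupport.of_compactSpace _)

theorem continuous_integral_right (m : Measure E) [IsProbabilityMeasure m] :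
    Continuous (fun f : C(E, ℝ) => ∫ x, f x ∂m) := by
  apply LipschitzWith.continuous (K := 1)
  apply LipschitzWith.of_dist_le_mul
  intro f g
  rw [NNReal.coe_one, one_mul, dist_eq_norm, dist_eq_norm, Real.norm_eq_abs,
    ← integral_sub (integrable_cont m f) (integrable_cont m g)]
  exact norm_integral_cont_le m (f - g)

open ENNReal in
theorem exists_theta : ∃ Θ : ProbabilityMeasure E → ℝ, Continuous Θ ∧
    ∀ (m m₁ m₂ : ProbabilityMeasure E) (a b : ℝ≥0∞), a ≠ 0 → b ≠ 0 → a + b = 1 →
      (m : Measure E) = a • (m₁ : Measure E) + b • (m₂ : Measure E) →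
      Θ m₁ ≤ Θ m → Θ m₂ ≤ Θ m → m₁ = m₂ := by
  classical
  letI : MetricSpace E := TopologicalSpace.metrizableSpaceMetric E
  haveI : SecondCountableTopology E := EMetric.secondCountable_of_sigmaCompact E
  set f : ℕ → C(E, ℝ) := TopologicalSpace.denseSeq C(E, ℝ) with hf
  have hfd : DenseRange f := TopologicalSpace.denseRange_denseSeq _
  set c : ℕ → ℝ := fun k => (1 / 2) ^ k / (1 + ‖f k‖) ^ 2 with hc
  have hcpos : ∀ k, 0 < c k := fun k => by
    have := norm_nonneg (f k)
    simp only [hc]
    positivity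
  have hcb : ∀ k (x : ℝ), |x| ≤ 2 * ‖f k‖ → c k * x ^ 2 ≤ 4 * (1 / 2) ^ k := by
    intro k x hx
    have h1 : x ^ 2 ≤ (2 * (1 + ‖f k‖)) ^ 2 := by
      apply sq_le_sq'
      · have := neg_abs_le x
        have := norm_nonneg (f k)
        linarith
      · have := le_abs_self x
        have := norm_nonneg (f k)
        linarith
    have hpos : 0 < (1 + ‖f k‖) ^ 2 := by
      have := norm_nonneg (f k)
      positivity
    have h2 : c k * x ^ 2 ≤ c k * (2 * (1 + ‖f k‖)) ^ 2 :=
      mul_le_mul_of_nonneg_left h1 (hcpos k).le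
    refine h2.trans (le_of_eq ?_)
    simp only [hc]
    rw [div_mul_eq_mul_div, div_eq_iff hpos.ne']
    ring
  have hsg : Summable fun k : ℕ => 4 * ((1 : ℝ) / 2) ^ k := summable_geometric_two.mul_left 4
  have hint : ∀ (m : ProbabilityMeasure E) k, |∫ x, f k x ∂(m : Measure E)| ≤ ‖f k‖ := fun m k =>
    norm_integral_cont_le (m : Measure E) (f k)
  have hsum : ∀ g : ℕ → ℝ, (∀ k, |g k| ≤ 2 * ‖f k‖) → Summable fun k => c k * g k ^ 2 := by
    intro g hg
    refine Summable.of_nonneg_of_le (fun k => mul_nonneg (hcpos k).le (sq_nonneg _))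
      (fun k => hcb k _ (hg k)) hsg
  have hint' : ∀ (m : ProbabilityMeasure E) k,
      |∫ x, f k x ∂(m : Measure E)| ≤ 2 * ‖f k‖ := fun m k =>
    (hint m k).trans (by have := norm_nonneg (f k); linarith)
  refine ⟨fun m => ∑' k, c k * (∫ x, f k x ∂(m : Measure E)) ^ 2, ?_, ?_⟩
  · refine continuous_tsum (fun k => ?_) hsg (fun k m => ?_)
    · exact continuous_const.mul
        ((ProbabilityMeasure.continuous_integral_continuousMap (f k)).pow 2)
    · rw [Real.norm_of_nonneg (mul_nonneg (hcpos k).le (sq_nonneg _))]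
      exact hcb k _ (hint' m k)
  · intro m m₁ m₂ a b ha hb hab hm h1 h2
    have hat : a ≠ ∞ := ne_top_of_le_ne_top one_ne_top (hab ▸ le_self_add)
    have hbt : b ≠ ∞ := ne_top_of_le_ne_top one_ne_top (hab ▸ le_add_self)
    set t : ℝ := a.toReal with htdef
    have htb : b.toReal = 1 - t := by
      have h3 := congrArg ENNReal.toReal hab
      rw [ENNReal.toReal_add hat hbt, ENNReal.toReal_one] at h3
      linarith
    have ht0 : 0 < t := ENNReal.toReal_pos ha hat
    have ht1 : 0 < 1 - t := by
      rw [← htb]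
      exact ENNReal.toReal_pos hb hbt
    set I : ℕ → ℝ := fun k => ∫ x, f k x ∂(m : Measure E) with hI
    set I₁ : ℕ → ℝ := fun k => ∫ x, f k x ∂(m₁ : Measure E) with hI₁
    set I₂ : ℕ → ℝ := fun k => ∫ x, f k x ∂(m₂ : Measure E) with hI₂
    have hII : ∀ k, I k = t * I₁ k + (1 - t) * I₂ k := by
      intro k
      simp only [hI, hI₁, hI₂]
      rw [hm, integral_add_measure, integral_smul_measure, integral_smul_measure, htb]
      · rfl
      · exact (integrable_cont (m₁ : Measure E) (f k)).smul_measure hat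
      · exact (integrable_cont (m₂ : Measure E) (f k)).smul_measure hbt
    have hs1 : Summable fun k => c k * I₁ k ^ 2 := hsum I₁ (hint' m₁)
    have hs2 : Summable fun k => c k * I₂ k ^ 2 := hsum I₂ (hint' m₂)
    have hs3 : Summable fun k => c k * (I₁ k - I₂ k) ^ 2 := hsum _ (fun k => by
      have h3 := hint m₁ k
      have h4 := hint m₂ k
      calc |I₁ k - I₂ k| ≤ |I₁ k| + |I₂ k| := abs_sub _ _
        _ ≤ ‖f k‖ + ‖f k‖ := add_le_add h3 h4
        _ = 2 * ‖f k‖ := by ring)
    have key : ∑' k, c k * I k ^ 2 = t * ∑' k, c k * I₁ k ^ 2 + (1 - t) * ∑' k, c k * I₂ k ^ 2 -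
        t * (1 - t) * ∑' k, c k * (I₁ k - I₂ k) ^ 2 := by
      rw [← tsum_mul_left, ← tsum_mul_left, ← tsum_mul_left,
        ← (hs1.mul_left t).tsum_add (hs2.mul_left (1 - t)),
        ← ((hs1.mul_left t).add (hs2.mul_left (1 - t))).tsum_sub (hs3.mul_left (t * (1 - t)))]
      congr 1
      funext k
      rw [hII k]
      ring
    have h1' : ∑' k, c k * I₁ k ^ 2 ≤ ∑' k, c k * I k ^ 2 := h1
    have h2' : ∑' k, c k * I₂ k ^ 2 ≤ ∑' k, c k * I k ^ 2 := h2
    have hS : ∑' k, c k * (I₁ k - I₂ k) ^ 2 ≤ 0 := by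
      have h3 : t * (1 - t) * ∑' k, c k * (I₁ k - I₂ k) ^ 2 ≤ 0 := by
        have h4 := mul_le_mul_of_nonneg_left h1' ht0.le
        have h5 := mul_le_mul_of_nonneg_left h2' ht1.le
        linarith
      by_contra hcon
      rw [not_le] at hcon
      have := mul_pos (mul_pos ht0 ht1) hcon
      linarith
    have heq : ∀ k, I₁ k = I₂ k := by
      intro k
      have h3 := hs3.le_tsum k (fun j _ => mul_nonneg (hcpos j).le (sq_nonneg _))
      have h4 : c k * (I₁ k - I₂ k) ^ 2 = 0 :=
        le_antisymm (h3.trans hS) (mul_nonneg (hcpos k).le (sq_nonneg _))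
      have h5 := (mul_eq_zero.1 h4).resolve_left (hcpos k).ne'
      exact sub_eq_zero.1 (pow_eq_zero_iff (two_ne_zero) |>.1 h5)
    have hfun : (fun g : C(E, ℝ) => ∫ x, g x ∂(m₁ : Measure E)) =
        fun g : C(E, ℝ) => ∫ x, g x ∂(m₂ : Measure E) :=
      hfd.equalizer (continuous_integral_right _) (continuous_integral_right _)
        (funext fun k => heq k)
    apply ProbabilityMeasure.toMeasure_injective
    apply ext_of_forall_integral_eq_of_IsFiniteMeasure
    intro g
    exact congrFun hfun g.toContinuousMap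

end top

end Pool.Agent.Helper88.Weiss
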